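import Mathlib
import Pool.Graph.R_pool_sql_team_seeded_64922ed1.X168.PK.Ms

/-!
# The matrix coefficients of a representation are polynomials in a faithful one
-/

open MeasureTheory Filter Topology Matrix
open scoped ComplexOrder

namespace Pool.Agent.H300.YM

set_option linter.unusedSectionVars false

noncomputable section

open Pool.Agent.X168
open Pool.Agent.X168.PK
open NA (UU Mat hol IsPath gt Lk sr tg)

variable {G : Type} [Group G] [TopologicalSpace G] [IsTopologicalGroup G] [CompactSpace G]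
  [T2Space G] [SecondCountableTopology G] [MeasurableSpace G] [BorelSpace G]
  {N : ℕ} (L : Emb G N) (μ : Measure G) [IsProbabilityMeasure μ] [μ.IsHaarMeasure]
  [μ.IsMulRightInvariant]

/-- the averaged polynomials -/
def Psi {p : ℕ} (ρ : G →* UU p) (P : Fin p → Fin p → (Fin 1 → G) → ℂ) (U : Fin 1 → G) :
    Matrix (Fin p) (Fin p) ℂ :=
  Matrix.of fun i j => ∫ g, ∑ k, P i k (fun s => U s * g⁻¹) * (ρ g : Mat p) k j ∂μ

lemma Psi_cont_aux {p : ℕ} {ρ : G →* UU p} (h : Continuous ρ)
    {P : Fin p → Fin p → (Fin 1 → G) → ℂ} (hP : ∀ i k, Continuous (P i k)) (U : Fin 1 → G)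
    (i j : Fin p) : Continuous fun g : G => ∑ k, P i k (fun s => U s * g⁻¹) * (ρ g : Mat p) k j := by
  refine continuous_finsetSum _ fun k _ => ((hP i k).comp ?_).mul (ent_cont h k j)
  exact continuous_pi fun s => continuous_const.mul continuous_inv

lemma Psi_equi {p : ℕ} {ρ : G →* UU p} (h : Continuous ρ)
    {P : Fin p → Fin p → (Fin 1 → G) → ℂ} (hP : ∀ i k, Continuous (P i k)) (b : G) :
    Psi μ ρ P (fun _ => b) = Psi μ ρ P (fun _ => 1) * (ρ b : Mat p) := by
  ext i j
  rw [Matrix.mul_apply]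
  unfold Psi
  simp only [Matrix.of_apply]
  rw [← integral_mul_right_eq_self (μ := μ) (fun g => ∑ k, P i k (fun _ => b * g⁻¹) *
    (ρ g : Mat p) k j) b]
  have h1 : ∀ g : G, ∑ k, P i k (fun _ => b * (g * b)⁻¹) * (ρ (g * b) : Mat p) k j =
      ∑ l, (∑ k, P i k (fun _ => 1 * g⁻¹) * (ρ g : Mat p) k l) * (ρ b : Mat p) l j := by
    intro g
    have h2 : b * (g * b)⁻¹ = 1 * g⁻¹ := by group
    rw [h2]
    have h3 : ∀ k, (ρ (g * b) : Mat p) k j = ∑ l, (ρ g : Mat p) k l * (ρ b : Mat p) l j := by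
      intro k
      rw [map_mul]
      exact Matrix.mul_apply
    simp only [h3, Finset.mul_sum, Finset.sum_mul]
    rw [Finset.sum_comm]
    exact Finset.sum_congr rfl fun l _ => Finset.sum_congr rfl fun k _ => by ring
  simp only [h1]
  rw [integral_finsetSum _ fun l _ => ?_]
  · exact Finset.sum_congr rfl fun l _ => integral_mul_const _ _
  · exact ic μ ((Psi_cont_aux h hP (fun _ => 1) i l).mul continuous_const)

lemma Psi_Pl {p m : ℕ} {ρ : G →* UU p} (h : Continuous ρ)
    {P : Fin p → Fin p → (Fin 1 → G) → ℂ} (hP : ∀ i k, Pl L.rho m (P i k)) (i j : Fin p) :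
    Pl L.rho m fun U => Psi μ ρ P U i j := by
  choose C hC using hP
  have hD := Dm_UR (E := Fin 1) L.rho L.cont m
  set c : Fin p → ((Fin m → I1 (Fin 1) N) × (Fin m → I1 (Fin 1) N)) → G → ℂ := fun k r g =>
    (∑ y, C i k (r.1, y) * Dm L.rho m (dg G 1 g⁻¹) r.2 y) * (ρ g : Mat p) k j with hc
  have hcc : ∀ k r, Continuous (c k r) := by
    intro k r
    refine Continuous.mul (continuous_finsetSum _ fun x _ => continuous_const.mul ?_)
      (ent_cont h k j)
    exact (hD.cont _ _).comp (dg_cont.comp continuous_inv)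
  refine ⟨fun r => ∑ k, ∫ g, c k r g ∂μ, fun U => ?_⟩
  show ∫ g, ∑ k, P i k (fun s => U s * g⁻¹) * (ρ g : Mat p) k j ∂μ =
    ∑ r, (∑ k, ∫ g, c k r g ∂μ) * mc (Dm L.rho m) r U
  have h1 : ∀ g, ∑ k, P i k (fun s => U s * g⁻¹) * (ρ g : Mat p) k j =
      ∑ k, ∑ r, c k r g * mc (Dm L.rho m) r U := by
    intro g
    refine Finset.sum_congr rfl fun k _ => ?_
    have h2 : (fun s => U s * g⁻¹) = U * dg G 1 g⁻¹ := rfl
    rw [h2, hC]
    have h3 : ∀ x : (Fin m → I1 (Fin 1) N) × (Fin m → I1 (Fin 1) N),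
        mc (Dm L.rho m) x (U * dg G 1 g⁻¹) =
        ∑ y, Dm L.rho m (dg G 1 g⁻¹) y x.2 * mc (Dm L.rho m) (x.1, y) U := by
      intro x
      unfold mc
      rw [hD.mul, Matrix.mul_apply]
      exact Finset.sum_congr rfl fun y _ => mul_comm _ _
    simp only [h3, Finset.mul_sum, Finset.sum_mul, hc, Fintype.sum_prod_type]
    refine Finset.sum_congr rfl fun a _ => ?_
    rw [Finset.sum_comm]
    refine Finset.sum_congr rfl fun b _ => Finset.sum_congr rfl fun b' _ => ?_
    ring
  simp only [h1]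
  have hcm : ∀ k r, Continuous fun g => c k r g * mc (Dm L.rho m) r U := fun k r =>
    (hcc k r).mul continuous_const
  rw [integral_finsetSum _ fun k _ => ic μ (continuous_finsetSum _ fun r _ => hcm k r)]
  have h4 : ∀ k, ∫ g, ∑ r, c k r g * mc (Dm L.rho m) r U ∂μ =
      ∑ r, (∫ g, c k r g ∂μ) * mc (Dm L.rho m) r U := by
    intro k
    rw [integral_finsetSum _ fun r _ => ic μ (hcm k r)]
    exact Finset.sum_congr rfl fun r _ => integral_mul_const _ _
  simp only [h4]
  rw [Finset.sum_comm]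
  exact Finset.sum_congr rfl fun r _ => (Finset.sum_mul _ _ _).symm

lemma ent_le {p : ℕ} (u : UU p) (i j : Fin p) : ‖(u : Mat p) i j‖ ≤ 1 := by
  exact entry_norm_bound_of_unitary u.2 i j

include μ in
/-- **The matrix coefficients are polynomials.** -/
theorem coef_Pl {p : ℕ} {ρ : G →* UU p} (h : Continuous ρ) :
    ∃ m, ∀ i j, Pl L.rho m fun U : Fin 1 → G => (ρ (U 0) : Mat p) i j := by
  set ε : ℝ := 1 / (2 * ((p : ℝ) + 1) ^ 2) with hε
  have hε0 : 0 < ε := by positivity
  have hF : ∀ i k, Continuous fun U : Fin 1 → G => (ρ (U 0) : Mat p) i k := fun i k =>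
    (ent_cont h i k).comp (continuous_apply 0)
  choose m P hP hPc hPε using fun i k => approx L (hF i k) hε0
  obtain ⟨M, hM⟩ : ∃ M : ℕ, ∀ i k, m i k ≤ M :=
    ⟨Finset.univ.sup fun i => Finset.univ.sup fun k => m i k, fun i k =>
      (Finset.le_sup (f := fun k => m i k) (Finset.mem_univ k)).trans
        (Finset.le_sup (f := fun i => Finset.univ.sup fun k => m i k) (Finset.mem_univ i))⟩
  have hPM : ∀ i k, Pl L.rho M (P i k) := fun i k => (hP i k).mono L.rho (hM i k)
  set T : Matrix (Fin p) (Fin p) ℂ := Psi μ ρ P (fun _ => 1) with hT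
  -- `T` is close to the identity
  have hclose : ∀ i j, ‖T i j - (1 : Matrix (Fin p) (Fin p) ℂ) i j‖ ≤ p * ε := by
    intro i j
    have h1 : (1 : Matrix (Fin p) (Fin p) ℂ) i j =
        ∫ g, ∑ k, (ρ g⁻¹ : Mat p) i k * (ρ g : Mat p) k j ∂μ := by
      have h2 : ∀ g : G, ∑ k, (ρ g⁻¹ : Mat p) i k * (ρ g : Mat p) k j =
          (1 : Matrix (Fin p) (Fin p) ℂ) i j := by
        intro g
        rw [← Matrix.mul_apply]
        have h3 : (ρ g⁻¹ * ρ g : UU p) = 1 := by rw [← map_mul, inv_mul_cancel, map_one]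
        have h4 := congrArg Subtype.val h3
        exact congrFun (congrFun h4 i) j
      simp only [h2]
      simp
    have c1 : Continuous fun g : G => ∑ k, P i k (fun _ => 1 * g⁻¹) * (ρ g : Mat p) k j :=
      Psi_cont_aux h hPc (fun _ => 1) i j
    have c2 : Continuous fun g : G => ∑ k, (ρ g⁻¹ : Mat p) i k * (ρ g : Mat p) k j :=
      continuous_finsetSum _ fun k _ =>
        ((ent_cont h i k).comp continuous_inv).mul (ent_cont h k j)
    have h0 : T i j = ∫ g, ∑ k, P i k (fun _ => 1 * g⁻¹) * (ρ g : Mat p) k j ∂μ := rfl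
    rw [h1, h0, ← integral_sub (ic μ c1) (ic μ c2)]
    refine (norm_integral_le_of_norm_le_const (C := p * ε) (Eventually.of_forall fun g => ?_)).trans
      (by simp)
    rw [← Finset.sum_sub_distrib]
    refine (norm_sum_le _ _).trans ?_
    have h5 : ∀ k ∈ (Finset.univ : Finset (Fin p)), ‖P i k (fun s => 1 * g⁻¹) * (ρ g : Mat p) k j -
        (ρ g⁻¹ : Mat p) i k * (ρ g : Mat p) k j‖ ≤ ε := by
      intro k _
      rw [← sub_mul, norm_mul]
      have h6 := (hPε i k (fun _ => 1 * g⁻¹)).le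
      have h7 : ‖P i k (fun _ => 1 * g⁻¹) - (ρ g⁻¹ : Mat p) i k‖ ≤ ε := by
        simpa using h6
      calc _ ≤ ε * 1 := mul_le_mul h7 (ent_le _ _ _) (norm_nonneg _) hε0.le
        _ = ε := mul_one _
    refine (Finset.sum_le_sum h5).trans (le_of_eq ?_)
    simp
  have hpε : (p : ℝ) * (p * ε) < 1 / 2 := by
    rw [hε]
    have : (p : ℝ) * (p * (1 / (2 * ((p : ℝ) + 1) ^ 2))) = (p ^ 2 / ((p : ℝ) + 1) ^ 2) / 2 := by
      field_simp
    rw [this]
    have h2 : (p : ℝ) ^ 2 / ((p : ℝ) + 1) ^ 2 < 1 := by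
      rw [div_lt_one (by positivity)]
      have : (0 : ℝ) ≤ p := Nat.cast_nonneg p
      nlinarith
    linarith
  have hdet : T.det ≠ 0 := by
    refine det_ne_zero_of_sum_row_lt_diag fun k => ?_
    have hp1 : 1 ≤ p := by
      have := k.2
      omega
    have hp1' : (1 : ℝ) ≤ p := by exact_mod_cast hp1
    have h1 : ∑ j ∈ Finset.univ.erase k, ‖T k j‖ ≤ ∑ j ∈ Finset.univ.erase k, (p * ε) := by
      refine Finset.sum_le_sum fun j hj => ?_
      have h2 := hclose k j
      rw [Matrix.one_apply_ne (Finset.ne_of_mem_erase hj).symm, sub_zero] at h2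
      exact h2
    have h3 : ∑ j ∈ (Finset.univ : Finset (Fin p)).erase k, ((p : ℝ) * ε) ≤ p * (p * ε) := by
      rw [Finset.sum_const, nsmul_eq_mul]
      refine mul_le_mul_of_nonneg_right ?_ (by positivity)
      have : (Finset.univ.erase k).card ≤ p := by
        refine (Finset.card_erase_le).trans ?_
        simp
      exact_mod_cast this
    have h4 := hclose k k
    rw [Matrix.one_apply_eq] at h4
    have h5 : 1 - p * ε ≤ ‖T k k‖ := by
      have h6 : ‖(1 : ℂ)‖ ≤ ‖T k k‖ + ‖T k k - 1‖ := by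
        have := norm_sub_le (T k k) (T k k - 1)
        simpa using this
      rw [norm_one] at h6
      linarith
    have h7 : p * ε ≤ p * (p * ε) := by
      have : 0 ≤ p * ε := by positivity
      nlinarith
    linarith
  have hinv : T⁻¹ * T = 1 := Matrix.nonsing_inv_mul T (isUnit_iff_ne_zero.2 hdet)
  refine ⟨M, fun i j => ?_⟩
  have h1 : (fun U : Fin 1 → G => (ρ (U 0) : Mat p) i j) = fun U =>
      ∑ k, T⁻¹ i k * Psi μ ρ P U k j := by
    funext U
    have h2 : U = fun _ => U 0 := by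
      funext s
      rw [Subsingleton.elim s 0]
    have h3 : Psi μ ρ P U = T * (ρ (U 0) : Mat p) := by
      have := Psi_equi μ h hPc (U 0)
      rwa [← h2] at this
    rw [← Matrix.mul_apply, h3, ← Matrix.mul_assoc, hinv, Matrix.one_mul]
  show SP (Dm L.rho M) _
  rw [h1]
  exact SP.sum _ fun k _ => (Psi_Pl L μ h hPM k j).smul _

end

end Pool.Agent.H300.YM
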