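import Pool.Agent.H300.YM.Mv1

/-!
# Moving a source along a link
-/

open MeasureTheory Filter Topology Matrix
open scoped ComplexOrder

namespace Pool.Agent.H300.YM

set_option linter.unusedSectionVars false

noncomputable section

open Pool.Agent.X168
open Pool.Agent.X168.PK
open NA (UU Mat hol IsPath gt Lk sr tg)

variable {G : Type} [Group G] [TopologicalSpace G] [IsTopologicalGroup G] [CompactSpace G]
  [T2Space G] [SecondCountableTopology G] [MeasurableSpace G] [BorelSpace G]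
  {N : ℕ} (L : Emb G N)
  {E X : Type} [Fintype E] [DecidableEq E] [Fintype X] [DecidableEq X]

section cmp

variable {Λ : E → Prop} [DecidablePred Λ] {p : ℕ} {ρ : G →* UU p} {e₀ : E}

lemma coef_link {d : ℕ} (hd : ∀ i j, Pl L.rho d fun U : Fin 1 → G => (ρ (U 0) : Mat p) i j)
    (he : Λ e₀) (i j : Fin p) :
    Pl L.rho d fun U : {e // Λ e} → G => (ρ (U ⟨e₀, he⟩) : Mat p) i j := by
  have h1 := Pl.comp L.rho (hd i j) (h := fun (U : {e // Λ e} → G) (_ : Fin 1) => U ⟨e₀, he⟩)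
    (l := 1) fun k i j => Pl.ent L.rho (⟨e₀, he⟩ : {e // Λ e}) i j
  rwa [mul_one] at h1

lemma mul_unit {u : UU p} {v : Fin p → ℂ} (h : ∀ i, ∑ j, (u : Mat p) i j * v j = 0) : v = 0 := by
  have h1 : (u : Mat p) *ᵥ v = 0 := by
    funext i
    exact h i
  have h2 : (u : Mat p)ᴴ * (u : Mat p) = 1 := Matrix.mem_unitaryGroup_iff'.1 u.2
  calc v = ((u : Mat p)ᴴ * (u : Mat p)) *ᵥ v := by rw [h2, Matrix.one_mulVec]
    _ = (u : Mat p)ᴴ *ᵥ ((u : Mat p) *ᵥ v) := (Matrix.mulVec_mulVec _ _ _).symm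
    _ = 0 := by rw [h1, Matrix.mulVec_zero]

lemma mul_unit' {u : UU p} {v : Fin p → ℂ} (h : ∀ i, ∑ j, (u : Mat p)ᴴ i j * v j = 0) :
    v = 0 := by
  have h1 : (u : Mat p)ᴴ *ᵥ v = 0 := by
    funext i
    exact h i
  have h2 : (u : Mat p) * (u : Mat p)ᴴ = 1 := Matrix.mem_unitaryGroup_iff.1 u.2
  calc v = ((u : Mat p) * (u : Mat p)ᴴ) *ᵥ v := by rw [h2, Matrix.one_mulVec]
    _ = (u : Mat p) *ᵥ ((u : Mat p)ᴴ *ᵥ v) := (Matrix.mulVec_mulVec _ _ _).symm
    _ = 0 := by rw [h1, Matrix.mulVec_zero]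

lemma rho_inv (g : G) : (ρ g⁻¹ : Mat p) = (ρ g : Mat p)ᴴ := by
  rw [map_inv]
  rfl

/-- from the target to the source -/
theorem cmp_tgt (h : Continuous ρ) (μ₁ : Measure ({e // Λ e} → G)) [IsProbabilityMeasure μ₁]
    [μ₁.IsMulLeftInvariant] [μ₁.IsMulRightInvariant] (Λ₁ : Ld L.rho μ₁) {src tgt : E → X} {d : ℕ}
    (hd : ∀ i j, Pl L.rho d fun U : Fin 1 → G => (ρ (U 0) : Mat p) i j) (he : Λ e₀) (m : ℕ) :
    Gm fun c : X → G => ((1 : ℕ) : ℂ) *
      (Λ₁.τ (ev G fun e : {e // Λ e} => src e) (ev G fun e : {e // Λ e} => tgt e)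
        (m + d) c * trace (ρ (c (src e₀)) : Mat p)) -
      Λ₁.τ (ev G fun e : {e // Λ e} => src e) (ev G fun e : {e // Λ e} => tgt e) m c *
        trace (ρ (c (tgt e₀)) : Mat p) := by
  have h0 := compare μ₁ (ev_cont (G := G) fun e : {e // Λ e} => src e)
    (ev_cont (G := G) fun e : {e // Λ e} => tgt e) (Dm_UR L.rho L.cont m)
    (Λ₁.onb m) (Dm_UR L.rho L.cont (m + d)) (Λ₁.onb (m + d)) (rep_UR h (tgt e₀))
    (rep_UR h (src e₀)) (A := Unit)
    (φ := fun _ U => (ρ (U ⟨e₀, he⟩) : Mat p)) ?_ ?_ ?_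
  · rw [Fintype.card_unit] at h0
    exact h0
  · intro _ c U
    show (ρ (c (src e₀) * U ⟨e₀, he⟩ * (c (tgt e₀))⁻¹) : Mat p) = _
    rw [map_mul, map_mul]
    show (ρ (c (src e₀)) : Mat p) * (ρ (U ⟨e₀, he⟩) : Mat p) * (ρ (c (tgt e₀))⁻¹ : Mat p) = _
    rw [rho_inv]
  · intro _ i j f hf
    have h2 := Pl.mul L.rho (show Pl L.rho m f from hf) (coef_link L hd he i j)
    have h3 : (fun U : {e // Λ e} → G => (ρ (U ⟨e₀, he⟩) : Mat p) i j * f U) =
        fun U => f U * (ρ (U ⟨e₀, he⟩) : Mat p) i j := funext fun U => mul_comm _ _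
    rw [h3]
    exact h2
  · intro F _ hz j U
    have h4 : (fun j => F j U) = 0 := mul_unit (u := ρ (U ⟨e₀, he⟩)) fun i => hz () U i
    exact congrFun h4 j

/-- from the source to the target -/
theorem cmp_src (h : Continuous ρ) (μ₁ : Measure ({e // Λ e} → G)) [IsProbabilityMeasure μ₁]
    [μ₁.IsMulLeftInvariant] [μ₁.IsMulRightInvariant] (Λ₁ : Ld L.rho μ₁) {src tgt : E → X} {d : ℕ}
    (hd : ∀ i j, Pl L.rho d fun U : Fin 1 → G => (ρ (U 0) : Mat p) i j) (he : Λ e₀) (m : ℕ) :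
    Gm fun c : X → G => ((1 : ℕ) : ℂ) *
      (Λ₁.τ (ev G fun e : {e // Λ e} => src e) (ev G fun e : {e // Λ e} => tgt e)
        (m + d) c * trace (ρ (c (tgt e₀)) : Mat p)) -
      Λ₁.τ (ev G fun e : {e // Λ e} => src e) (ev G fun e : {e // Λ e} => tgt e) m c *
        trace (ρ (c (src e₀)) : Mat p) := by
  have h0 := compare μ₁ (ev_cont (G := G) fun e : {e // Λ e} => src e)
    (ev_cont (G := G) fun e : {e // Λ e} => tgt e) (Dm_UR L.rho L.cont m)
    (Λ₁.onb m) (Dm_UR L.rho L.cont (m + d)) (Λ₁.onb (m + d)) (rep_UR h (src e₀))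
    (rep_UR h (tgt e₀)) (A := Unit)
    (φ := fun _ U => (ρ (U ⟨e₀, he⟩) : Mat p)ᴴ) ?_ ?_ ?_
  · rw [Fintype.card_unit] at h0
    exact h0
  · intro _ c U
    show (ρ (c (src e₀) * U ⟨e₀, he⟩ * (c (tgt e₀))⁻¹) : Mat p)ᴴ = _
    rw [map_mul, map_mul]
    show ((ρ (c (src e₀)) : Mat p) * (ρ (U ⟨e₀, he⟩) : Mat p) * (ρ (c (tgt e₀))⁻¹ : Mat p))ᴴ = _
    rw [rho_inv, Matrix.conjTranspose_mul, Matrix.conjTranspose_mul,
      Matrix.conjTranspose_conjTranspose, Matrix.mul_assoc]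
  · intro _ i j f hf
    have h1 : Pl L.rho d fun U : {e // Λ e} → G => (ρ (U ⟨e₀, he⟩) : Mat p)ᴴ i j :=
      (coef_link L hd he j i).cj L.rho
    have h2 := Pl.mul L.rho (show Pl L.rho m f from hf) h1
    have h3 : (fun U : {e // Λ e} → G => (ρ (U ⟨e₀, he⟩) : Mat p)ᴴ i j * f U) =
        fun U => f U * (ρ (U ⟨e₀, he⟩) : Mat p)ᴴ i j := funext fun U => mul_comm _ _
    rw [h3]
    exact h2
  · intro F _ hz j U
    have h4 : (fun j => F j U) = 0 := mul_unit' (u := ρ (U ⟨e₀, he⟩)) fun i => hz () U i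
    exact congrFun h4 j

end cmp

variable (μ : Measure G) [IsProbabilityMeasure μ] [μ.IsMulLeftInvariant]
  [μ.IsMulRightInvariant] [μ.IsOpenPosMeasure]

/-- **Comparison on a graph**, for two representations of the group of the gauge
transformations. -/
theorem graph_gen {κ κ' : Type} [Fintype κ] [DecidableEq κ] [Fintype κ'] [DecidableEq κ']
    {kk : ℕ} {src tgt : E → X} {Λ : E → Prop} [DecidablePred Λ]
    {P : (X → G) → Matrix κ κ ℂ} {P' : (X → G) → Matrix κ' κ' ℂ} (hP : UR P) (hP' : UR P')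
    {a d : ℕ}
    (hcmp : ∀ (Λ₁ : Ld L.rho (Measure.pi fun _ : {e // Λ e} => μ)) (m : ℕ),
      Gm fun c : X → G => (a : ℂ) *
      (Λ₁.τ (ev G fun e : {e // Λ e} => src e) (ev G fun e : {e // Λ e} => tgt e)
        (m + d) c * trace (P' c)) -
      Λ₁.τ (ev G fun e : {e // Λ e} => src e) (ev G fun e : {e // Λ e} => tgt e) m c *
        trace (P c))
    {B : Type} [Fintype B] [DecidableEq B] {Q : (X → G) → Matrix B B ℂ} (hQ : UR Q)
    {β R b : ℝ} (hβ : 0 < β) (hR : (Fintype.card (I1 {e // Λ e} N) : ℝ) ≤ R) (hb : 0 < b)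
    {M : (E → G) → ℝ} (hM : Continuous M) (hMi : ∀ c U, M (gt src tgt c U) = M U)
    (hM0 : ∀ U, 0 ≤ M U) {M₂ : ({e // ¬ Λ e} → G) → ℝ} (hM₂ : Continuous M₂)
    (hMi₂ : ∀ c U, M₂ (gt (fun e : {e // ¬ Λ e} => src e) (fun e => tgt e) c U) = M₂ U)
    (hM₂0 : ∀ U, 0 ≤ M₂ U) (hle : ∀ U, M U ≤ b * M₂ (rs Λ U)) (hge : ∀ U, M₂ (rs Λ U) ≤ b * M U)
    {H : ℝ} (hH0 : 0 ≤ H) (hH : ∀ m : ℕ, ((2:ℝ) ^ (m + 1)) ^ (kk + 1) *
      (BB β R m) ^ (kk + 1) * (UB β R b a d m) ^ kk *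
        VB β R b (Fintype.card κ * Fintype.card B : ℕ) m ≤ H) (n : ℕ) :
    (zf L μ src tgt (fun c => trace (P c) * trace (Q c)) M β n) ^ (kk + 1) ≤
      (b ^ (kk + 1) * H) ^ (n + 1) *
        ((zf L μ src tgt (fun c => trace (P' c) * trace (Q c)) M β n) ^ kk *
          zf L μ src tgt (fun _ => 1) M β n) := by
  have r0 := pi_right μ (E := X)
  have l0 := pi_left μ (E := X)
  have r1 := pi_right μ (E := {e // Λ e})
  have l1 := pi_left μ (E := {e // Λ e})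
  have r2 := pi_right μ (E := {e // ¬ Λ e})
  have l2 := pi_left μ (E := {e // ¬ Λ e})
  obtain ⟨Λ₁⟩ := exists_Ld L.rho L.cont (Measure.pi fun _ : {e // Λ e} => μ)
  obtain ⟨Λ₂⟩ := exists_Ld L.rho L.cont (Measure.pi fun _ : {e // ¬ Λ e} => μ)
  set Φ := MeasurableEquiv.piEquivPiSubtypeProd (fun _ : E => G) Λ with hΦdef
  have hΦ : MeasurePreserving Φ (Measure.pi fun _ : E => μ)
      ((Measure.pi fun _ : {e // Λ e} => μ).prod (Measure.pi fun _ : {e // ¬ Λ e} => μ)) :=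
    measurePreserving_piEquivPiSubtypeProd (fun _ : E => μ) Λ
  have hΦv : ∀ U, Φ U = ((fun e : {e // Λ e} => U e), (fun e : {e // ¬ Λ e} => U e)) :=
    fun U => rfl
  have key : ∀ g : (X → G) → ℂ, zf L μ src tgt g M β n =
      zz (Measure.pi fun _ : X => μ) (Measure.pi fun _ : {e // Λ e} => μ)
        (Measure.pi fun _ : {e // ¬ Λ e} => μ) L.rho (ev G fun e : {e // Λ e} => src e)
        (ev G fun e : {e // Λ e} => tgt e) (ev G fun e : {e // ¬ Λ e} => src e)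
        (ev G fun e : {e // ¬ Λ e} => tgt e) g (fun U => M (jn Λ U)) β n := by
    intro g
    unfold zf zz
    rw [Zg_map (Measure.pi fun _ : X => μ) Φ hΦ (K' := pk (kE L.rho β) (kE L.rho β))
      (M' := fun U => M (jn Λ U)) (act' := pa (la (ev G fun e : {e // Λ e} => src e)
        (ev G fun e : {e // Λ e} => tgt e)) (la (ev G fun e : {e // ¬ Λ e} => src e)
        (ev G fun e : {e // ¬ Λ e} => tgt e))) ?_ ?_ ?_]
    · intro U V
      unfold pk kE
      rw [← Complex.ofReal_mul, ← Real.exp_add, rt_split L.rho Λ (U * V⁻¹), mul_add]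
      rfl
    · intro U
      rw [hΦv, jn_left]
    · intro c U
      rfl
  rw [key, key, key]
  refine main_abs (μ₁ := Measure.pi fun _ : {e // Λ e} => μ)
    (μ₂ := Measure.pi fun _ : {e // ¬ Λ e} => μ) L.cont (Measure.pi fun _ : X => μ)
    (ev_cont _) (ev_cont _) (ev_cont _) (ev_cont _) Λ₁ Λ₂ hM₂ hMi₂ hM₂0 hβ
    (P := P) (P' := P')
    hP hP' hQ hR hb (M := fun U => M (jn Λ U))
    (hM.comp (jn_cont Λ)) ?_ (fun U => hM0 _) ?_ ?_
    (a := a) (d := d) (q := Fintype.card κ * Fintype.card B) ?_ le_rfl hH0 hH n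
  · intro c U
    show M (jn Λ (pa _ _ c U)) = M (jn Λ U)
    rw [← hMi c (jn Λ U)]
    congr 1
    funext e
    show (if h : Λ e then _ else _) = c (src e) * (if h : Λ e then _ else _) * (c (tgt e))⁻¹
    split_ifs <;> rfl
  · intro U
    have h := hle (jn Λ U)
    rwa [jn_rs] at h
  · intro U
    have h := hge (jn Λ U)
    rwa [jn_rs] at h
  · intro m
    exact hcmp Λ₁ m

end

end Pool.Agent.H300.YM
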