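import Pool.Agent.H300.YM.Mv2

/-!
# Moving a source on the lattice
-/

open MeasureTheory Filter Topology Matrix
open scoped ComplexOrder

namespace Pool.Agent.H300.YM

set_option linter.unusedSectionVars false

noncomputable section

open Pool.Agent.X168
open Pool.Agent.X168.PK
open NA (UU Mat hol IsPath gt Lk sr tg)

variable {G : Type} [Group G] [TopologicalSpace G] [IsTopologicalGroup G] [CompactSpace G]
  [T2Space G] [SecondCountableTopology G] [MeasurableSpace G] [BorelSpace G]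
  {N : ℕ} (L : Emb G N) (μ : Measure G) [IsProbabilityMeasure μ] [μ.IsHaarMeasure]
  [μ.IsMulRightInvariant]

/-- the source is moved from the target of the link `e₀` to its source -/
theorem lattice_move {D : ℕ} {p : ℕ} {ρ : G →* UU p} (h : Continuous ρ) {β : ℝ} (hβ : 0 < β)
    (kk nB : ℕ) :
    ∃ C : ℝ, 0 < C ∧ ∀ (l : ℕ) [NeZero l] (e₀ : Lk D l)
      (B : Type) [Fintype B] [DecidableEq B], Fintype.card B = nB →
      ∀ (Q : ((Fin D → ZMod l) → G) → Matrix B B ℂ), UR Q → ∀ n,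
      (zf L μ (sr : Lk D l → _) tg (fun c => trace (ρ (c (tg e₀)) : Mat p) * trace (Q c))
        (mg L (fun p : Pqt D l => pw p.1) β) β n) ^ (kk + 1) ≤
      C ^ (n + 1) *
        ((zf L μ (sr : Lk D l → _) tg (fun c => trace (ρ (c (sr e₀)) : Mat p) * trace (Q c))
          (mg L (fun p : Pqt D l => pw p.1) β) β n) ^ kk *
          zf L μ (sr : Lk D l → _) tg (fun _ => 1) (mg L (fun p : Pqt D l => pw p.1) β) β n) := by
  classical
  obtain ⟨d, hd⟩ := coef_Pl L μ h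
  obtain ⟨t, ht⟩ : ∃ t : ℕ, t = 1 * (3 * (D * D)) := ⟨_, rfl⟩
  obtain ⟨R, hR⟩ : ∃ R : ℝ, R = ((1 + 2 * (N * 1) : ℕ) : ℝ) := ⟨_, rfl⟩
  have hR1 : 1 ≤ R := by
    rw [hR]
    exact_mod_cast Nat.le_add_right 1 _
  obtain ⟨H, hH1, hH⟩ := hbound (b := Real.exp (β * (N * t))) hβ hR1 (Real.exp_pos _).le
    (a := ((1 : ℕ) : ℝ)) (q := (p * nB : ℕ)) (Nat.cast_nonneg _) (Nat.cast_nonneg _)
    d kk
  refine ⟨Real.exp (β * (N * t)) ^ (kk + 1) * H,
    mul_pos (pow_pos (Real.exp_pos _) _) (by linarith), ?_⟩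
  intro l _ e₀ B _ _ hB Q hQ n
  obtain ⟨Λ, hΛ⟩ : ∃ Λ : Lk D l → Prop, ∀ e, Λ e ↔ e ∈ ({e₀} : Finset (Lk D l)) :=
    ⟨fun e => e ∈ ({e₀} : Finset (Lk D l)), fun _ => Iff.rfl⟩
  have hdec : DecidablePred Λ := Classical.decPred Λ
  have he₀ : Λ e₀ := (hΛ e₀).2 (Finset.mem_singleton_self _)
  have hcard : (Fintype.card (I1 {e // Λ e} N) : ℝ) ≤ R := by
    rw [card_I1, hR]
    have h1 : Fintype.card {e // Λ e} ≤ 1 := by
      rw [Fintype.card_of_subtype ({e₀} : Finset (Lk D l)) (fun e => (hΛ e).symm)]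
      simp
    have h2 : 1 + 2 * (N * Fintype.card {e // Λ e}) ≤ 1 + 2 * (N * 1) := by
      gcongr
    exact_mod_cast h2
  have htouch : (Finset.univ.filter fun p : Pqt D l => ∃ e, Λ e ∧ NA.cnt e (pw p.1) ≠ 0).card ≤
      t := by
    have h1 := touch ({e₀} : Finset (Lk D l)) Λ (fun e he => (hΛ e).1 he)
    refine h1.trans ?_
    rw [ht]
    exact Nat.mul_le_mul_right _ (by simp)
  subst hB
  have hmc := mg_cmp L Λ (fun p : Pqt D l => pw p.1) hβ htouch
  refine graph_gen L (μ := μ) (kk := kk) (src := (sr : Lk D l → _)) (tgt := tg) (Λ := Λ)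
    (P := fun c => (ρ (c (tg e₀)) : Mat p)) (P' := fun c => (ρ (c (sr e₀)) : Mat p))
    (rep_UR h (tg e₀)) (rep_UR h (sr e₀)) (a := 1) (d := d) ?_ hQ hβ hcard (Real.exp_pos _)
    (mg_cont L _ β) (fun c U => mg_inv L (fun p : Pqt D l => ⟨p.1.1, pw_path p.1⟩) β c U)
    (fun _ => (Real.exp_pos _).le) (mg2_cont L Λ _ β)
    (fun c U => mg2_inv L Λ (fun p : Pqt D l => ⟨p.1.1, pw_path p.1⟩) β c U)
    (fun _ => (Real.exp_pos _).le) (fun U => (hmc U).1) (fun U => (hmc U).2) (by linarith) ?_ n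
  · intro Λ₁ m
    have r1 := pi_right μ (E := {e // Λ e})
    have l1 := pi_left μ (E := {e // Λ e})
    exact cmp_tgt L h _ Λ₁ hd he₀ m
  · intro m
    have := hH m
    rw [Fintype.card_fin]
    exact this

/-- moving one source by one step -/
theorem one_move {D : ℕ} {ι : Type} [Fintype ι] [DecidableEq ι] (R : ι → Rp G) (i : ι)
    {β : ℝ} (hβ : 0 < β) (k : ℕ) :
    ∃ C : ℝ, 0 < C ∧ ∀ (l : ℕ) [NeZero l] (x : ι → (Fin D → ZMod l)) (a : Fin D) (n : ℕ),
      (zm L μ β n R (Function.update x i (x i + Pi.single a 1))) ^ (k + 1) ≤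
        C ^ (n + 1) * ((zm L μ β n R x) ^ k * z1 L μ D l β n) := by
  obtain ⟨C, hC, H⟩ := lattice_move L μ (D := D) (R i).cont hβ k
    (∏ j ∈ Finset.univ.erase i, (R j).dim)
  refine ⟨C, hC, ?_⟩
  intro l _ x a n
  obtain ⟨B, _, _, Q, hQ, hcard, ht⟩ := prodUR R x (Finset.univ.erase i)
  have h1 := H l (x i, a) B hcard Q hQ n
  have e1 : (fun c : (Fin D → ZMod l) → G =>
      trace ((R i).hom (c (tg ((x i, a) : Lk D l))) : Mat (R i).dim) *
      trace (Q c)) = fun c => ∏ j, (R j).ct (c ((Function.update x i (x i + Pi.single a 1)) j)) := by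
    funext c
    rw [ht, ← Finset.mul_prod_erase Finset.univ _ (Finset.mem_univ i), Function.update_self]
    congr 1
    refine Finset.prod_congr rfl fun j hj => ?_
    rw [Function.update_of_ne (Finset.ne_of_mem_erase hj)]
  have e2 : (fun c : (Fin D → ZMod l) → G =>
      trace ((R i).hom (c (sr ((x i, a) : Lk D l))) : Mat (R i).dim) *
      trace (Q c)) = fun c => ∏ j, (R j).ct (c (x j)) := by
    funext c
    rw [ht, ← Finset.mul_prod_erase Finset.univ _ (Finset.mem_univ i)]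
    rfl
  rw [e1, e2] at h1
  exact h1

end

end Pool.Agent.H300.YM
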