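import Pool.Agent.H300.YM.Mv3
import Pool.Graph.R_pool_sql_team_seeded_64922ed1.Results.MP_7f377f_mp.PolyakovNality

/-!
# The probability measure of the lattice theory
-/

open MeasureTheory Filter Topology Matrix
open scoped ComplexOrder

namespace Pool.Agent.H300.YM

set_option linter.unusedSectionVars false

noncomputable section

open Pool.Agent.X168
open Pool.Agent.X168.PK
open Pool.Agent.Results.MP_7f377f_mp.PolyakovNality

variable {G : Type} [Group G] [TopologicalSpace G] [IsTopologicalGroup G] [CompactSpace G]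
  [T2Space G] [SecondCountableTopology G] [MeasurableSpace G] [BorelSpace G]
  (μ : Measure G) [IsProbabilityMeasure μ] [μ.IsHaarMeasure]
  [μ.IsMulRightInvariant] (τ : Rep G) (hτ : Function.Injective τ.hom) {D l : ℕ} [NeZero l]
  (m : ℕ) (β : ℝ)

/-- configurations -/
abbrev Cf (G : Type) (D l m : ℕ) := (Fin (m + 1) → Link D l → G) × (Fin (m + 1) → Site D l → G)

/-- the product of the Haar measures -/
def bas (D l m : ℕ) [NeZero l] (μ : Measure G) : Measure (Cf G D l m) :=
  (Measure.pi fun _ => Measure.pi fun _ => μ).prod (Measure.pi fun _ => Measure.pi fun _ => μ)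

instance : IsProbabilityMeasure (bas D l m μ) := by
  unfold bas
  infer_instance

/-- the Boltzmann weight -/
def wt (ω : Cf G D l m) : ℝ := Real.exp (β * wilson τ ω.1 ω.2)

include hτ in
lemma wt_cont : Continuous (wt τ m β : Cf G D l m → ℝ) := by
  unfold wt
  refine Real.continuous_exp.comp (continuous_const.mul ?_)
  have h1 := SS_cont (emb τ hτ) (NA.sr : Link D l → _) NA.tg (fun p : Pqt D l => pw p.1) m
  have h2 : (fun ω : Cf G D l m => wilson τ ω.1 ω.2) = fun ω => SS (emb τ hτ)
      (NA.sr : Link D l → _) NA.tg (fun p : Pqt D l => pw p.1) ω.1 ω.2 :=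
    funext fun ω => wilson_eq τ hτ m ω.1 ω.2
  rw [h2]
  exact h1

lemma wt_pos (ω : Cf G D l m) : 0 < wt τ m β ω := Real.exp_pos _

/-- the partition function -/
def Zt (D l m : ℕ) [NeZero l] (μ : Measure G) (τ : Rep G) (β : ℝ) : ℝ :=
  ∫ ω, wt τ m β ω ∂(bas D l m μ)

lemma icR {Y : Type} [TopologicalSpace Y] [CompactSpace Y] [MeasurableSpace Y]
    [OpensMeasurableSpace Y] (ν : Measure Y) [IsFiniteMeasure ν] {E : Type} [NormedAddCommGroup E]
    [SecondCountableTopology E] {f : Y → E}
    (hf : Continuous f) : Integrable f ν := by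
  obtain ⟨C, hC⟩ := (isCompact_range hf).isBounded.exists_norm_le
  let _ : MeasurableSpace E := borel E
  have _ : BorelSpace E := ⟨rfl⟩
  refine Integrable.of_bound hf.aestronglyMeasurable C (Eventually.of_forall fun y => ?_)
  exact hC _ (Set.mem_range_self y)

include hτ in
lemma Zt_pos : 0 < Zt D l m μ τ β := by
  have h1 : 0 < ∫ ω : Cf G D l m, wt τ m β ω ∂(bas D l m μ) := by
    rw [integral_pos_iff_support_of_nonneg (fun ω => (wt_pos τ m β ω).le)
      (icR _ (wt_cont τ hτ m β))]
    have : Function.support (wt τ m β : Cf G D l m → ℝ) = Set.univ := by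
      ext ω
      simp [(wt_pos τ m β ω).ne']
    rw [this]
    simp
  exact h1

/-- the probability measure of the theory -/
def PP (D l m : ℕ) [NeZero l] (μ : Measure G) (τ : Rep G) (β : ℝ) : Measure (Cf G D l m) :=
  (bas D l m μ).withDensity fun ω => ENNReal.ofReal (wt τ m β ω / Zt D l m μ τ β)

include hτ in
lemma PP_int {E : Type} [NormedAddCommGroup E] [NormedSpace ℝ E] (f : Cf G D l m → E) :
    ∫ ω, f ω ∂(PP D l m μ τ β) = ∫ ω, (wt τ m β ω / Zt D l m μ τ β) • f ω ∂(bas D l m μ) := by
  unfold PP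
  have hm : Measurable fun ω : Cf G D l m => wt τ m β ω / Zt D l m μ τ β :=
    ((wt_cont τ hτ m β).div_const _).measurable
  have h1 := integral_withDensity_eq_integral_smul (μ := bas D l m μ)
    (f := fun ω : Cf G D l m => Real.toNNReal (wt τ m β ω / Zt D l m μ τ β)) hm.real_toNNReal f
  have h2 : (fun ω : Cf G D l m => ENNReal.ofReal (wt τ m β ω / Zt D l m μ τ β)) =
      fun ω => ((Real.toNNReal (wt τ m β ω / Zt D l m μ τ β) : NNReal) : ENNReal) := rfl
  rw [h2, h1]
  refine integral_congr_ae (Eventually.of_forall fun ω => ?_)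
  show (Real.toNNReal (wt τ m β ω / Zt D l m μ τ β)) • f ω = _
  rw [NNReal.smul_def, Real.coe_toNNReal _
    (div_nonneg (wt_pos τ m β ω).le (Zt_pos μ τ hτ m β).le)]

include hτ in
lemma PP_prob : IsProbabilityMeasure (PP D l m μ τ β) := by
  constructor
  unfold PP
  rw [withDensity_apply _ MeasurableSet.univ, Measure.restrict_univ,
    ← ofReal_integral_eq_lintegral_ofReal]
  · rw [integral_div]
    show ENNReal.ofReal (Zt D l m μ τ β / Zt D l m μ τ β) = 1
    rw [div_self (Zt_pos μ τ hτ m β).ne', ENNReal.ofReal_one]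
  · exact (icR _ (wt_cont τ hτ m β)).div_const _
  · exact Eventually.of_forall fun ω =>
      div_nonneg (wt_pos τ m β ω).le (Zt_pos μ τ hτ m β).le

include hτ in
/-- the mean is the expectation -/
lemma mean_eq {F : (Fin (m + 1) → Site D l → G) → ℝ} (hF : Continuous F) :
    mean D l (m + 1) μ τ β F = ∫ ω, F ω.2 ∂(PP D l m μ τ β) := by
  rw [PP_int μ τ hτ]
  unfold mean Pool.Agent.Results.MP_7f377f_mp.PolyakovNality.integral
  have hw := wt_cont (D := D) (l := l) τ hτ m β
  have h1 : ∀ F : (Fin (m + 1) → Site D l → G) → ℝ, Continuous F →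
      ∫ U : Fin (m + 1) → Link D l → G, ∫ V : Fin (m + 1) → Site D l → G,
        F V * Real.exp (β * wilson τ U V)
        ∂(Measure.pi fun _ => Measure.pi fun _ => μ) ∂(Measure.pi fun _ => Measure.pi fun _ => μ) =
      ∫ ω, F ω.2 * wt τ m β ω ∂(bas D l m μ) := by
    intro F hF
    have h2 : Integrable (fun ω : Cf G D l m => F ω.2 * wt τ m β ω) (bas D l m μ) :=
      icR _ ((hF.comp continuous_snd).mul hw)
    unfold bas at h2 ⊢
    rw [integral_prod _ h2]
    rfl
  rw [h1 F hF, h1 (fun _ => 1) continuous_const]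
  have h3 : ∀ ω : Cf G D l m, (wt τ m β ω / Zt D l m μ τ β) • F ω.2 =
      (F ω.2 * wt τ m β ω) / Zt D l m μ τ β := by
    intro ω
    rw [smul_eq_mul]
    ring
  simp only [h3, one_mul]
  rw [integral_div]
  rfl

end

end Pool.Agent.H300.YM
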